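import Pool.Agent.W902.C6.Stm

set_option autoImplicit false

/-!
# Project C6 (MP_639dfe_co): S_map
-/

open Pool.Agent.H800R3 Filter

namespace Pool.Agent.W924.C6.MAP

open Pool.Agent.W902.C6

/-- the point of kind `k` with parameter `r` -/
def pt (a : ℕ × ℝ) : Pt := if a.1 = 0 then (0, 0) else if a.1 = 1 then (a.2, 1) else (1, a.2)

/-- the image of a described point -/
def im (f h : ℝ → ℝ) (a : ℕ × ℝ) : ℕ × ℝ :=
  (a.1, if a.1 = 0 then a.2 else if a.1 = 1 then f a.2 else h a.2)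

/-- admissible descriptions -/
def Adm (e : Bool) (A T : Finset ℝ) (a : ℕ × ℝ) : Prop :=
  (a.1 = 0 ∧ e = true) ∨ (a.1 = 1 ∧ a.2 ∈ A) ∨ (a.1 = 2 ∧ a.2 ∈ T)

theorem mem_std {e : Bool} {A T : Finset ℝ} {q : Pt} :
    q ∈ std e A T ↔ ∃ a, Adm e A T a ∧ q = pt a := by
  constructor
  · intro hq
    unfold std at hq
    rw [Finset.mem_union, Finset.mem_union] at hq
    rcases hq with hq | hq | hq
    · split_ifs at hq with he
      · rw [Finset.mem_singleton] at hq
        exact ⟨(0, 0), Or.inl ⟨rfl, he⟩, by rw [hq]; simp [pt]⟩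
      · simp at hq
    · obtain ⟨s, hs, rfl⟩ := Finset.mem_image.1 hq
      exact ⟨(1, s), Or.inr (Or.inl ⟨rfl, hs⟩), by simp [pt]⟩
    · obtain ⟨t, ht, rfl⟩ := Finset.mem_image.1 hq
      exact ⟨(2, t), Or.inr (Or.inr ⟨rfl, ht⟩), by simp [pt]⟩
  · rintro ⟨⟨k, r⟩, ha, rfl⟩
    unfold std
    rw [Finset.mem_union, Finset.mem_union]
    rcases ha with ⟨hk, he⟩ | ⟨hk, hr⟩ | ⟨hk, hr⟩
    · left
      simp only at hk
      subst hk
      simp [pt, he]
    · right; left
      simp only at hk hr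
      subst hk
      exact Finset.mem_image.2 ⟨r, hr, by simp [pt]⟩
    · right; right
      simp only at hk hr
      subst hk
      exact Finset.mem_image.2 ⟨r, hr, by simp [pt]⟩

theorem perm_red (Q : (ℕ × ℝ) → (ℕ × ℝ) → (ℕ × ℝ) → Prop)
    (hc : ∀ a b c, Q a b c → Q b c a) (hs : ∀ a b c, Q a b c → Q b a c)
    (hord : ∀ a b c : ℕ × ℝ, a.1 ≤ b.1 → b.1 ≤ c.1 → Q a b c) : ∀ a b c, Q a b c := by
  intro a b c
  rcases le_total a.1 b.1 with h1 | h1
  · rcases le_total b.1 c.1 with h2 | h2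
    · exact hord a b c h1 h2
    · rcases le_total a.1 c.1 with h3 | h3
      · exact hc _ _ _ (hs _ _ _ (hord a c b h3 h2))
      · exact hc _ _ _ (hord c a b h3 h1)
  · rcases le_total b.1 c.1 with h2 | h2
    · rcases le_total a.1 c.1 with h3 | h3
      · exact hs _ _ _ (hord b a c h1 h3)
      · exact hc _ _ _ (hc _ _ _ (hord b c a h2 h3))
    · exact hc _ _ _ (hc _ _ _ (hs _ _ _ (hord c b a h2 h1)))

/-- strict monotonicity in terms of signs -/
theorem sign_mono {A : Finset ℝ} {f : ℝ → ℝ} (hf : ∀ s ∈ A, ∀ s' ∈ A, s < s' → f s < f s')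
    {s s' : ℝ} (hs : s ∈ A) (hs' : s' ∈ A) :
    SignType.sign (f s - f s') = SignType.sign (s - s') := by
  rcases lt_trichotomy s s' with h | h | h
  · rw [sign_neg (sub_neg.2 h), sign_neg (sub_neg.2 (hf s hs s' hs' h))]
  · rw [h, sub_self, sub_self]
  · rw [sign_pos (sub_pos.2 h), sign_pos (sub_pos.2 (hf s' hs' s hs h))]

theorem sign_one {x y : ℝ} (h : SignType.sign (x - 1) = SignType.sign (y - 1)) :
    x = 1 ↔ y = 1 := by
  have h1 : SignType.sign (x - 1) = 0 ↔ x - 1 = 0 := sign_eq_zero_iff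
  have h2 : SignType.sign (y - 1) = 0 ↔ y - 1 = 0 := sign_eq_zero_iff
  rw [h] at h1
  rw [← sub_eq_zero, ← h1, h2, sub_eq_zero]

theorem main : S_map := by
  classical
  intro e A T A' T' ⟨f, h, hf1, hf2, hh1, hh2, hfm, hhm, hfh, hf0, hh0⟩
  have sf : ∀ s ∈ A, ∀ s' ∈ A, SignType.sign (f s - f s') = SignType.sign (s - s') :=
    fun s hs s' hs' => sign_mono hfm hs hs'
  have sh : ∀ s ∈ T, ∀ s' ∈ T, SignType.sign (h s - h s') = SignType.sign (s - s') :=
    fun s hs s' hs' => sign_mono hhm hs hs'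
  have sneg : ∀ x y : ℝ, SignType.sign x = SignType.sign y →
      SignType.sign (-x) = SignType.sign (-y) := by
    intro x y hxy
    rw [Left.sign_neg, Left.sign_neg, hxy]
  -- orientations
  have key : ∀ a b c : ℕ × ℝ, Adm e A T a → Adm e A T b → Adm e A T c →
      orient (pt (im f h a)) (pt (im f h b)) (pt (im f h c)) = orient (pt a) (pt b) (pt c) := by
    refine perm_red _ ?_ ?_ ?_
    · intro a b c H hb hc ha
      rw [orient_cyc (pt (im f h a)), orient_cyc (pt a)]
      exact H ha hb hc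
    · intro a b c H hb ha hc
      rw [orient_swap, orient_swap (pt a)]
      rw [H ha hb hc]
    · rintro ⟨k1, r1⟩ ⟨k2, r2⟩ ⟨k3, r3⟩ h12 h23 ha hb hc
      unfold Adm at ha hb hc
      simp only at ha hb hc h12 h23
      rcases ha with ⟨rfl, he⟩ | ⟨rfl, ha⟩ | ⟨rfl, ha⟩
      · rcases hb with ⟨rfl, _⟩ | ⟨rfl, hb⟩ | ⟨rfl, hb⟩
        · simp only [pt, im, if_true]
          unfold orient
          rw [D_self, D_self]
        · rcases hc with ⟨rfl, _⟩ | ⟨rfl, hc⟩ | ⟨rfl, hc⟩
          · omega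
          · simp only [pt, im, if_true, one_ne_zero, if_false]
            unfold orient D
            simp only
            rw [show (f r2 - 0) * ((1 : ℝ) - 0) - (1 - 0) * (f r3 - 0) = f r2 - f r3 by ring,
              show (r2 - 0) * ((1 : ℝ) - 0) - (1 - 0) * (r3 - 0) = r2 - r3 by ring]
            exact sf _ hb _ hc
          · simp only [pt, im, if_true, one_ne_zero, if_false, OfNat.ofNat_ne_zero,
              OfNat.ofNat_ne_one]
            unfold orient D
            simp only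
            rw [show (f r2 - 0) * (h r3 - 0) - (1 - 0) * ((1 : ℝ) - 0) = f r2 * h r3 - 1 by ring,
              show (r2 - 0) * (r3 - 0) - (1 - 0) * ((1 : ℝ) - 0) = r2 * r3 - 1 by ring]
            exact hfh _ hb _ hc
        · rcases hc with ⟨rfl, _⟩ | ⟨rfl, hc⟩ | ⟨rfl, hc⟩
          · omega
          · omega
          · simp only [pt, im, if_true, one_ne_zero, if_false, OfNat.ofNat_ne_zero,
              OfNat.ofNat_ne_one]
            unfold orient D
            simp only
            rw [show ((1 : ℝ) - 0) * (h r3 - 0) - (h r2 - 0) * (1 - 0) = h r3 - h r2 by ring,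
              show ((1 : ℝ) - 0) * (r3 - 0) - (r2 - 0) * (1 - 0) = r3 - r2 by ring]
            exact sh _ hc _ hb
      · rcases hb with ⟨rfl, _⟩ | ⟨rfl, hb⟩ | ⟨rfl, hb⟩
        · omega
        · rcases hc with ⟨rfl, _⟩ | ⟨rfl, hc⟩ | ⟨rfl, hc⟩
          · omega
          · simp only [pt, im, if_true, one_ne_zero, if_false]
            unfold orient D
            simp only
            rw [show (f r2 - f r1) * ((1 : ℝ) - 1) - (1 - 1) * (f r3 - f r1) = 0 by ring,
              show (r2 - r1) * ((1 : ℝ) - 1) - (1 - 1) * (r3 - r1) = 0 by ring]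
          · simp only [pt, im, if_true, one_ne_zero, if_false, OfNat.ofNat_ne_zero,
              OfNat.ofNat_ne_one]
            unfold orient D
            simp only
            rw [show (f r2 - f r1) * (h r3 - 1) - (1 - 1) * ((1 : ℝ) - f r1) =
                (f r2 - f r1) * (h r3 - 1) by ring,
              show (r2 - r1) * (r3 - 1) - (1 - 1) * ((1 : ℝ) - r1) = (r2 - r1) * (r3 - 1) by ring,
              sign_mul, sign_mul, sf _ hb _ ha, hh0 _ hc]
        · rcases hc with ⟨rfl, _⟩ | ⟨rfl, hc⟩ | ⟨rfl, hc⟩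
          · omega
          · omega
          · simp only [pt, im, if_true, one_ne_zero, if_false, OfNat.ofNat_ne_zero,
              OfNat.ofNat_ne_one]
            unfold orient D
            simp only
            rw [show (1 - f r1) * (h r3 - 1) - (h r2 - 1) * ((1 : ℝ) - f r1) =
                -((f r1 - 1) * (h r3 - h r2)) by ring,
              show (1 - r1) * (r3 - 1) - (r2 - 1) * ((1 : ℝ) - r1) =
                -((r1 - 1) * (r3 - r2)) by ring]
            apply sneg
            rw [sign_mul, sign_mul, sh _ hc _ hb, hf0 _ ha]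
      · have h2 : k2 = 2 := by
          rcases hb with ⟨rfl, _⟩ | ⟨rfl, hb⟩ | ⟨rfl, hb⟩ <;> omega
        have h3 : k3 = 2 := by
          rcases hc with ⟨rfl, _⟩ | ⟨rfl, hc⟩ | ⟨rfl, hc⟩ <;> omega
        subst h2 h3
        simp only [pt, im, if_true, one_ne_zero, if_false, OfNat.ofNat_ne_zero,
          OfNat.ofNat_ne_one]
        unfold orient D
        simp only
        rw [show ((1 : ℝ) - 1) * (h r3 - h r1) - (h r2 - h r1) * (1 - 1) = 0 by ring,
          show ((1 : ℝ) - 1) * (r3 - r1) - (r2 - r1) * (1 - 1) = 0 by ring]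
  -- well-definedness and injectivity
  have inj : ∀ a b : ℕ × ℝ, Adm e A T a → Adm e A T b →
      (pt (im f h a) = pt (im f h b) ↔ pt a = pt b) := by
    have fe : ∀ s ∈ A, ∀ s' ∈ A, (f s = f s' ↔ s = s') := by
      intro s hs s' hs'
      constructor
      · intro H
        rcases lt_trichotomy s s' with h | h | h
        · exact absurd H (hfm s hs s' hs' h).ne
        · exact h
        · exact absurd H (hfm s' hs' s hs h).ne'
      · rintro rfl; rfl
    have he : ∀ s ∈ T, ∀ s' ∈ T, (h s = h s' ↔ s = s') := by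
      intro s hs s' hs'
      constructor
      · intro H
        rcases lt_trichotomy s s' with h | h | h
        · exact absurd H (hhm s hs s' hs' h).ne
        · exact h
        · exact absurd H (hhm s' hs' s hs h).ne'
      · rintro rfl; rfl
    rintro ⟨k1, r1⟩ ⟨k2, r2⟩ ha hb
    unfold Adm at ha hb
    simp only at ha hb
    rcases ha with ⟨rfl, -⟩ | ⟨rfl, ha⟩ | ⟨rfl, ha⟩ <;>
      rcases hb with ⟨rfl, -⟩ | ⟨rfl, hb⟩ | ⟨rfl, hb⟩
    · simp [pt, im]
    · simp [pt, im]
    · simp [pt, im]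
    · simp [pt, im]
    · simp [pt, im, fe _ ha _ hb]
    · have e1 := sign_one (hf0 _ ha)
      have e2 := sign_one (hh0 _ hb)
      simp only [pt, im, one_ne_zero, if_false, if_true, OfNat.ofNat_ne_zero,
          OfNat.ofNat_ne_one, Prod.mk.injEq, e1]
      constructor
      · rintro ⟨p, q⟩
        exact ⟨p, (e2.1 q.symm).symm⟩
      · rintro ⟨p, q⟩
        exact ⟨p, (e2.2 q.symm).symm⟩
    · simp [pt, im]
    · have e1 := sign_one (hh0 _ ha)
      have e2 := sign_one (hf0 _ hb)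
      simp only [pt, im, one_ne_zero, if_false, if_true, OfNat.ofNat_ne_zero,
          OfNat.ofNat_ne_one, Prod.mk.injEq, e1]
      constructor
      · rintro ⟨p, q⟩
        exact ⟨(e2.1 p.symm).symm, q⟩
      · rintro ⟨p, q⟩
        exact ⟨(e2.2 p.symm).symm, q⟩
    · simp [pt, im, he _ ha _ hb]
  have adm' : ∀ a, Adm e A T a → Adm e A' T' (im f h a) := by
    rintro ⟨k, r⟩ ha
    unfold Adm at ha ⊢
    simp only at ha
    rcases ha with ⟨rfl, he⟩ | ⟨rfl, ha⟩ | ⟨rfl, ha⟩
    · left; exact ⟨rfl, he⟩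
    · right; left
      exact ⟨rfl, by simpa [im] using hf1 _ ha⟩
    · right; right
      exact ⟨rfl, by simpa [im] using hh1 _ ha⟩
  have hchoose : ∀ q : std e A T, ∃ a, Adm e A T a ∧ (q : Pt) = pt a := fun q => mem_std.1 q.2
  choose g hg1 hg2 using hchoose
  refine ⟨Equiv.ofBijective (fun q : std e A T =>
    (⟨pt (im f h (g q)), mem_std.2 ⟨_, adm' _ (hg1 q), rfl⟩⟩ : std e A' T')) ⟨?_, ?_⟩, ?_⟩
  · intro x y hxy
    apply Subtype.ext
    rw [hg2 x, hg2 y]
    exact (inj _ _ (hg1 x) (hg1 y)).1 (congrArg Subtype.val hxy)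
  · rintro ⟨y, hy⟩
    obtain ⟨⟨k, r⟩, hb, hyb⟩ := mem_std.1 hy
    have : ∃ a, Adm e A T a ∧ pt (im f h a) = pt (k, r) := by
      unfold Adm at hb
      simp only at hb
      rcases hb with ⟨rfl, he⟩ | ⟨rfl, hb⟩ | ⟨rfl, hb⟩
      · exact ⟨(0, 0), Or.inl ⟨rfl, he⟩, by simp [pt, im]⟩
      · obtain ⟨s, hs, rfl⟩ := hf2 _ hb
        exact ⟨(1, s), Or.inr (Or.inl ⟨rfl, hs⟩), by simp [pt, im]⟩
      · obtain ⟨s, hs, rfl⟩ := hh2 _ hb
        exact ⟨(2, s), Or.inr (Or.inr ⟨rfl, hs⟩), by simp [pt, im]⟩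
    obtain ⟨a, ha, hab⟩ := this
    refine ⟨⟨pt a, mem_std.2 ⟨a, ha, rfl⟩⟩, ?_⟩
    apply Subtype.ext
    simp only
    rw [hyb, ← hab]
    refine (inj _ _ (hg1 _) ha).2 ?_
    exact (hg2 ⟨pt a, mem_std.2 ⟨a, ha, rfl⟩⟩).symm
  · intro a b c
    simp only [Equiv.ofBijective_apply]
    rw [hg2 a, hg2 b, hg2 c]
    exact key _ _ _ (hg1 a) (hg1 b) (hg1 c)

end Pool.Agent.W924.C6.MAP
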